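import Pool.Agent.U865.PP.Lin
import Pool.Agent.R433.MD.Hyper

/-!
# Elliptic curves: the action on the points of order `p`, the induction theorem
-/

set_option autoImplicit false

open Module NumberField
open scoped Classical

namespace Pool.Agent.U865.PP

/-- The additive endomorphism `a` of the group `V` (which is killed by the prime number `p`) generates a
Cartan subalgebra which is normalised by the group `G`: `a` is not the multiplication by an integer,
it is a root of the polynomial `x ^ 2 - t x + n`, which is separable modulo `p`, and for `g` in `G`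
there are integers `i`, `j` with `g a g⁻¹ = i + j a`. -/
def IsCartan (p : ℕ) {V G : Type*} [AddCommGroup V] (act : G → V →+ V) (a : V →+ V) : Prop :=
  (∀ i : ℤ, ∃ v, a v ≠ i • v) ∧
  (∃ t n : ℤ, (∀ v, a (a v) = t • a v - n • v) ∧
    ∀ r : ℤ, ¬ ((p : ℤ) ∣ r ^ 2 - t * r + n ∧ (p : ℤ) ∣ 2 * r - t)) ∧
  ∀ g, ∃ i j : ℤ, ∀ v, act g (a v) = i • act g v + j • a (act g v)

/-- The additive form. -/
theorem exists_cartan_aux {p : ℕ} [Fact p.Prime] {V : Type*} [AddCommGroup V] [Module (ZMod p) V]
    (hcard : Nat.card V = p ^ 2) {G : Type*} [Group G] [Finite G]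
    (act : G → V →+ V) (h1 : ∀ v, act 1 v = v) (hmul : ∀ g h v, act (g * h) v = act g (act h v))
    (hG : TwoHyper G)
    (hirr : ∀ C : AddSubgroup V, Nat.card C = p → ∃ g, ∃ v ∈ C, act g v ∉ C) :
    ∃ a : V →+ V, IsCartan p act a := by
  have hfinV : Finite V := Nat.finite_of_card_ne_zero (by
    rw [hcard]
    exact pow_ne_zero _ (Fact.out : p.Prime).ne_zero)
  have hfin : Module.Finite (ZMod p) V := Module.Finite.of_finite
  have hcardk : Nat.card (ZMod p) = p := Nat.card_zmod p
  have h2 : finrank (ZMod p) V = 2 := by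
    have h := Module.natCard_eq_pow_finrank (K := ZMod p) (V := V)
    rw [hcard, hcardk] at h
    exact (Nat.pow_right_injective (Fact.out : p.Prime).two_le h).symm
  let ρ : G →* End (ZMod p) V :=
    { toFun := fun g => (act g).toZModLinearMap p
      map_one' := LinearMap.ext fun v => h1 v
      map_mul' := fun g h => LinearMap.ext fun v => hmul g h v }
  have hρ : ∀ g v, ρ g v = act g v := fun _ _ => rfl
  have hirr' : ∀ C : Submodule (ZMod p) V, finrank (ZMod p) C = 1 →
      ∃ g, ∃ v ∈ C, ρ g v ∉ C := by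
    intro C hC
    refine hirr C.toAddSubgroup ?_
    have h := Module.natCard_eq_pow_finrank (K := ZMod p) (V := C)
    rw [hC, hcardk, pow_one] at h
    exact h
  obtain ⟨a, ha, hn⟩ := exists_normalised h2 ρ hG hirr'
  obtain ⟨t, n, hq⟩ := quad h2 a
  have hcast : ∀ (x : ZMod p) (v : V), x • v = (x.val : ℤ) • v := by
    intro x v
    rw [← Int.cast_smul_eq_zsmul (ZMod p)]
    congr 1
    rw [Int.cast_natCast, ZMod.natCast_zmod_val]
  have hcast' : ∀ x : ZMod p, ((x.val : ℤ) : ZMod p) = x := by
    intro x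
    rw [Int.cast_natCast, ZMod.natCast_zmod_val]
  refine ⟨a.toAddMonoidHom, fun i => ?_, ⟨t.val, n.val, fun v => ?_, fun r hr => ?_⟩, fun g => ?_⟩
  · by_contra hcon
    push Not at hcon
    apply ha (i : ZMod p)
    ext v
    have := hcon v
    rw [LinearMap.smul_apply, Module.End.one_apply, Int.cast_smul_eq_zsmul]
    exact this
  · have := hq v
    rw [hcast t, hcast n] at this
    exact this
  · refine separable_of_irred h2 ρ hirr' ha hn hq (r : ZMod p) ⟨?_, ?_⟩
    · have := (ZMod.intCast_zmod_eq_zero_iff_dvd _ p).2 hr.1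
      push_cast at this
      rw [ZMod.natCast_zmod_val, ZMod.natCast_zmod_val] at this
      exact this
    · have := (ZMod.intCast_zmod_eq_zero_iff_dvd _ p).2 hr.2
      push_cast at this
      rw [ZMod.natCast_zmod_val] at this
      exact this
  · obtain ⟨x, y, hxy⟩ := hn g
    refine ⟨x.val, y.val, fun v => ?_⟩
    have := hxy v
    rw [hcast x, hcast y] at this
    exact this

/-- The additive form. -/
theorem exists_cartan {p : ℕ} [Fact p.Prime] {V : Type*} [AddCommGroup V]
    (hp : ∀ v : V, p • v = 0) (hcard : Nat.card V = p ^ 2) {G : Type*} [Group G] [Finite G]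
    (act : G → V →+ V) (h1 : ∀ v, act 1 v = v) (hmul : ∀ g h v, act (g * h) v = act g (act h v))
    (hG : TwoHyper G)
    (hirr : ∀ C : AddSubgroup V, Nat.card C = p → ∃ g, ∃ v ∈ C, act g v ∉ C) :
    ∃ a : V →+ V, IsCartan p act a :=
  @exists_cartan_aux p _ V _ (AddCommGroup.zmodModule hp) hcard G _ _ act h1 hmul hG hirr

/-- **Solomon's induction theorem at the prime number `2`.** -/
theorem two_local (G : Type) [Group G] [Finite G] :
    ∃ (m : ℕ) (n : Subgroup G → ℤ), Odd m ∧ (∀ H, n H ≠ 0 → TwoHyper H) ∧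
      ∀ g, ∑ᶠ H, n H * Pool.Agent.R433.MD.fx H g = m := by
  obtain ⟨m, n, hm0, hmP, hn, hsum⟩ := Pool.Agent.R433.MD.perm_unit
    {H : Subgroup G | Pool.Agent.R433.MD.IsHyper 2 H}
    (fun H hH H' _ => hH.le inf_le_left) (fun H hH x => hH.conj x) {2}
    (fun g => by
      obtain ⟨H, hH, h⟩ := Pool.Agent.R433.MD.hyper_count Nat.prime_two g
      exact ⟨H, hH, fun h0 => h (by rw [h0]; exact dvd_zero _)⟩)
    (fun g q hq hqp => by
      rw [Set.mem_singleton_iff] at hq
      subst hq
      exact Pool.Agent.R433.MD.hyper_count Nat.prime_two g)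
  refine ⟨m, n, ?_, fun H hH => ?_, hsum⟩
  · rw [← Nat.not_even_iff_odd, even_iff_two_dvd]
    exact hmP 2 rfl Nat.prime_two
  · have hH' : Pool.Agent.R433.MD.IsHyper 2 H := by
      by_contra hcon
      exact hH (hn H hcon)
    obtain ⟨C, hC, hcyc, hcop, hnorm, hpow⟩ := hH'
    obtain ⟨⟨c, hc⟩, hgen⟩ := hcyc.exists_generator
    have hz : ∀ x : H, (x : G) ∈ C → x ∈ Subgroup.zpowers (⟨c, hC hc⟩ : H) := by
      intro x hx
      obtain ⟨k, hk⟩ := hgen ⟨x, hx⟩
      refine ⟨k, ?_⟩
      apply Subtype.ext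
      have := congrArg (Subtype.val : C → G) hk
      exact this
    refine ⟨⟨c, hC hc⟩, ?_, fun g => hz _ ?_, fun g => ?_⟩
    · have h1 : orderOf (⟨c, hC hc⟩ : H) = orderOf (⟨c, hc⟩ : C) := by
        rw [← Subgroup.orderOf_coe, ← Subgroup.orderOf_coe]
      rw [h1, orderOf_eq_card_of_forall_mem_zpowers hgen]
      exact (Nat.coprime_two_right).1 hcop
    · exact hnorm g g.2 c hc
    · obtain ⟨k, hk⟩ := hpow g g.2
      exact ⟨k, hz _ hk⟩

/-! ### Elliptic curves -/

/-- The group of the points `P` with `p P = 0` on the curve `W` over the field `L`. -/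
def Tors (p : ℕ) {L : Type} [Field L] (W : WeierstrassCurve L) : Type :=
  AddSubgroup.torsionBy W.toAffine.Point (p : ℤ)

noncomputable instance (p : ℕ) {L : Type} [Field L] (W : WeierstrassCurve L) :
    AddCommGroup (Tors p W) :=
  inferInstanceAs (AddCommGroup (AddSubgroup.torsionBy W.toAffine.Point (p : ℤ)))

lemma Tors.nsmul {p : ℕ} {L : Type} [Field L] {W : WeierstrassCurve L} (P : Tors p W) :
    p • P = 0 :=
  AddSubgroup.torsionBy.nsmul (A := W.toAffine.Point) (n := p) P

section

variable {F L : Type} [Field F] [Field L] [Algebra F L]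

/-- The action of an automorphism of `L` over `F` on the points of `E` over `L`. -/
noncomputable def actPt (E : WeierstrassCurve F) (σ : Gal(L/F)) :
    (E.baseChange L).toAffine.Point → (E.baseChange L).toAffine.Point :=
  WeierstrassCurve.Affine.Point.map (W' := E.toAffine) (σ : L →ₐ[F] L)

theorem actPt_mem (p : ℕ) (E : WeierstrassCurve F) (σ : Gal(L/F))
    (P : (E.baseChange L).toAffine.Point)
    (hP : P ∈ AddSubgroup.torsionBy (E.baseChange L).toAffine.Point (p : ℤ)) :
    actPt E σ P ∈ AddSubgroup.torsionBy (E.baseChange L).toAffine.Point (p : ℤ) := by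
  unfold actPt
  rw [AddSubgroup.torsionBy.nsmul_iff, ← map_nsmul, AddSubgroup.torsionBy.nsmul_iff.1 hP,
    map_zero]

/-- The action of an automorphism of `L` over `F` on the points `P` of `E` over `L` with `p P = 0`. -/
noncomputable def actFun (p : ℕ) (E : WeierstrassCurve F) (σ : Gal(L/F))
    (P : Tors p (E.baseChange L)) : Tors p (E.baseChange L) :=
  ⟨actPt E σ P.1, actPt_mem p E σ P.1 P.2⟩

theorem actFun_add (p : ℕ) (E : WeierstrassCurve F) (σ : Gal(L/F))
    (P Q : Tors p (E.baseChange L)) :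
    actFun p E σ (P + Q) = actFun p E σ P + actFun p E σ Q :=
  Subtype.ext (map_add (WeierstrassCurve.Affine.Point.map (W' := E.toAffine) (σ : L →ₐ[F] L)) _ _)

/-- The action of the automorphism `σ` of `L` over `F` on the group of the points `P` of `E` over `L`
with `p P = 0`. -/
noncomputable def act (p : ℕ) (E : WeierstrassCurve F) (σ : Gal(L/F)) :
    Tors p (E.baseChange L) →+ Tors p (E.baseChange L) :=
  AddMonoidHom.mk' (actFun p E σ) (actFun_add p E σ)

lemma act_one (p : ℕ) (E : WeierstrassCurve F) (P : Tors p (E.baseChange L)) :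
    act p E (1 : Gal(L/F)) P = P := by
  apply Subtype.ext
  obtain ⟨P, hP⟩ := P
  change WeierstrassCurve.Affine.Point.map (W' := E.toAffine)
    ((1 : Gal(L/F)) : L →ₐ[F] L) P = P
  cases P <;> rfl

lemma act_mul (p : ℕ) (E : WeierstrassCurve F) (σ τ : Gal(L/F)) (P : Tors p (E.baseChange L)) :
    act p E (σ * τ) P = act p E σ (act p E τ P) := by
  apply Subtype.ext
  obtain ⟨P, hP⟩ := P
  change WeierstrassCurve.Affine.Point.map (W' := E.toAffine)
    ((σ * τ : Gal(L/F)) : L →ₐ[F] L) P = WeierstrassCurve.Affine.Point.map (W' := E.toAffine)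
      (σ : L →ₐ[F] L) (WeierstrassCurve.Affine.Point.map (W' := E.toAffine) (τ : L →ₐ[F] L) P)
  cases P <;> rfl

end

end Pool.Agent.U865.PP
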