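import Pool.Agent.U865.PP.Lin

/-!
# Dihedral quotients of two-hyperelementary groups
-/

set_option autoImplicit false

namespace Pool.Agent.U865.PP

/-- A `2`-hyperelementary group whose order is divisible by a prime number `p ≡ 3` modulo `4` has a
normal subgroup of index `p` or a nonabelian quotient of order `2 p`. -/
theorem dihedral_quot {G : Type*} [Group G] [Finite G] {p : ℕ} (hp : p.Prime) (hp3 : p % 4 = 3)
    (hG : TwoHyper G) (hdvd : p ∣ Nat.card G) :
    (∃ N : Subgroup G, N.Normal ∧ N.index = p) ∨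
      ∃ N H₁ H₂ : Subgroup G, N.Normal ∧ N ≤ H₁ ∧ N ≤ H₂ ∧ N.index = 2 * p ∧ H₁.index = 2 ∧
        H₂.index = p ∧ ∃ g h : G, g * h * g⁻¹ * h⁻¹ ∉ N := by
  classical
  obtain ⟨c, hodd, hn, hpow⟩ := hG
  have hp2 : p ≠ 2 := by omega
  have : Fact p.Prime := ⟨hp⟩
  have : Fact (Nat.Prime 2) := ⟨Nat.prime_two⟩
  -- `p` divides the order of `c`
  have hCn : (Subgroup.zpowers c).Normal := by
    refine ⟨?_⟩
    rintro _ ⟨k, rfl⟩ g
    have h1 : g * c ^ k * g⁻¹ = (g * c * g⁻¹) ^ k := (conj_zpow).symm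
    change g * c ^ k * g⁻¹ ∈ Subgroup.zpowers c
    rw [h1]
    exact Subgroup.zpow_mem _ (hn g) k
  have hpd : p ∣ orderOf c := by
    have h1 := Subgroup.card_mul_index (Subgroup.zpowers c)
    have hP : IsPGroup 2 (G ⧸ Subgroup.zpowers c) := by
      intro q
      obtain ⟨g, rfl⟩ := QuotientGroup.mk_surjective q
      obtain ⟨j, hj⟩ := hpow g
      refine ⟨j, ?_⟩
      rw [← QuotientGroup.mk_pow]
      exact (QuotientGroup.eq_one_iff _).2 hj
    obtain ⟨b, hb⟩ := IsPGroup.iff_card.1 hP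
    have h2 : (Subgroup.zpowers c).index = 2 ^ b := hb
    rw [← h1, h2, Nat.card_zpowers] at hdvd
    rcases hp.dvd_mul.1 hdvd with h | h
    · exact h
    · exact absurd ((Nat.prime_dvd_prime_iff_eq hp Nat.prime_two).1 (hp.dvd_of_dvd_pow h)) hp2
  -- the quotient by the subgroup generated by `c ^ p`
  let D : Subgroup G := Subgroup.zpowers (c ^ p)
  have hDn : D.Normal := by
    refine ⟨?_⟩
    rintro _ ⟨k, rfl⟩ g
    obtain ⟨j, hj⟩ := hn g
    have h1 : g * (c ^ p) ^ k * g⁻¹ = ((c ^ p) ^ j) ^ k := by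
      have e1 : g * (c ^ p) ^ k * g⁻¹ = ((g * c * g⁻¹) ^ p) ^ k := by
        rw [conj_pow, conj_zpow]
      have e2 : g * c * g⁻¹ = c ^ j := hj.symm
      have e3 : (c ^ j) ^ p = (c ^ p) ^ j := by
        rw [← zpow_natCast, ← zpow_mul, mul_comm, zpow_mul, zpow_natCast]
      rw [e1, e2, e3]
    change g * (c ^ p) ^ k * g⁻¹ ∈ D
    rw [h1]
    exact D.zpow_mem (D.zpow_mem (Subgroup.mem_zpowers _) _) _
  let Q := G ⧸ D
  let π : G →* Q := QuotientGroup.mk' D
  have hπ : Function.Surjective π := QuotientGroup.mk'_surjective D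
  let z : Q := π c
  have hz1 : z ≠ 1 := by
    intro h
    have h1 : c ∈ D := (QuotientGroup.eq_one_iff c).1 h
    have h2 : Subgroup.zpowers c ≤ D := by rwa [Subgroup.zpowers_le]
    have h3 := Subgroup.card_le_of_le h2
    rw [Nat.card_zpowers, Nat.card_zpowers, orderOf_pow_of_dvd hp.ne_zero hpd] at h3
    have h4 := Nat.div_lt_self (orderOf_pos c) hp.one_lt
    omega
  have hzp : z ^ p = 1 := by
    have h1 : π (c ^ p) = 1 := (QuotientGroup.eq_one_iff _).2 (Subgroup.mem_zpowers _)
    rwa [map_pow] at h1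
  have hzo : orderOf z = p := orderOf_eq_prime hzp hz1
  let Z : Subgroup Q := Subgroup.zpowers z
  have hZc : Nat.card Z = p := by rw [Nat.card_zpowers, hzo]
  have hZn : Z.Normal := by
    have h1 : Z = (Subgroup.zpowers c).map π := (MonoidHom.map_zpowers π c).symm
    rw [h1]
    exact Subgroup.Normal.map hCn π hπ
  have hZp : IsPGroup 2 (Q ⧸ Z) := by
    intro q
    obtain ⟨x, rfl⟩ := QuotientGroup.mk_surjective q
    obtain ⟨g, rfl⟩ := hπ x
    obtain ⟨j, k, hj⟩ := hpow g
    refine ⟨j, ?_⟩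
    rw [← QuotientGroup.mk_pow, ← map_pow]
    refine (QuotientGroup.eq_one_iff _).2 ⟨k, ?_⟩
    change π c ^ k = π (g ^ 2 ^ j)
    rw [← map_zpow]
    exact congrArg π hj
  obtain ⟨b, hb⟩ := IsPGroup.iff_card.1 hZp
  have hZi : Z.index = 2 ^ b := hb
  have hcop : Nat.Coprime 2 p := (Nat.coprime_primes Nat.prime_two hp).2 hp2.symm
  -- a Sylow subgroup
  obtain ⟨P⟩ : Nonempty (Sylow 2 Q) := inferInstance
  have hPi : (P : Subgroup Q).index = p := by
    obtain ⟨d, hd⟩ := IsPGroup.iff_card.1 P.isPGroup'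
    have h1 := Subgroup.card_mul_index (P : Subgroup Q)
    have h2 := Subgroup.card_mul_index Z
    have h3 := P.not_dvd_index
    rw [hZc, hZi] at h2
    rw [hd, ← h2] at h1
    -- `2 ^ d * i = p * 2 ^ b` with `i` odd
    have h4 : (P : Subgroup Q).index ∣ p := by
      have h5 : (P : Subgroup Q).index ∣ p * 2 ^ b := ⟨2 ^ d, by
        rw [mul_comm (P : Subgroup Q).index]
        exact h1.symm⟩
      refine Nat.Coprime.dvd_of_dvd_mul_right ?_ h5
      exact Nat.Coprime.pow_right _ ((Nat.Prime.coprime_iff_not_dvd Nat.prime_two).2 h3).symm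
    have h6 : p ∣ (P : Subgroup Q).index := by
      have h5 : p ∣ 2 ^ d * (P : Subgroup Q).index := ⟨2 ^ b, h1⟩
      exact (Nat.Coprime.pow_right d hcop.symm).dvd_of_dvd_mul_left h5
    exact Nat.dvd_antisymm h4 h6
  have hZP : Z ⊓ (P : Subgroup Q) = ⊥ := by
    apply disjoint_iff.1
    apply Subgroup.disjoint_of_coprime_natCard
    obtain ⟨d, hd⟩ := IsPGroup.iff_card.1 P.isPGroup'
    rw [hZc, hd]
    exact Nat.Coprime.pow_right d hcop.symm
  have hZPtop : Z ⊔ (P : Subgroup Q) = ⊤ := by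
    apply Subgroup.index_eq_one.1
    have h1 : (Z ⊔ (P : Subgroup Q)).index ∣ Z.index := Subgroup.index_dvd_of_le le_sup_left
    have h2 : (Z ⊔ (P : Subgroup Q)).index ∣ (P : Subgroup Q).index :=
      Subgroup.index_dvd_of_le le_sup_right
    rw [hZi] at h1
    rw [hPi] at h2
    exact Nat.eq_one_of_dvd_coprimes (Nat.Coprime.pow_left b hcop) h1 h2
  -- the action on `Z`
  let χ : Q →* MulAut Z := MulAut.conjNormal
  let R : Subgroup Q := χ.ker
  have hR : ∀ x : Q, x ∈ R ↔ x * z = z * x := by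
    intro x
    rw [MonoidHom.mem_ker]
    constructor
    · intro h
      have h1 := congrArg (fun f => ((f ⟨z, Subgroup.mem_zpowers z⟩ : Z) : Q)) h
      have h2 : x * z * x⁻¹ = z := h1
      exact mul_inv_eq_iff_eq_mul.1 h2
    · intro h
      ext ⟨y, k, hk⟩
      have h1 : x * y * x⁻¹ = y := by
        rw [← hk]
        change x * z ^ k * x⁻¹ = z ^ k
        have h3 : Commute x z := h
        rw [(h3.zpow_right k).mul_inv_cancel]
      exact h1
  have hZR : Z ≤ R := by
    rw [Subgroup.zpowers_le, hR]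
  have hRn : R.Normal := inferInstance
  have hRi : R.index = 1 ∨ R.index = 2 := by
    have h1 : R.index ∣ 2 ^ b := by
      rw [← hZi]
      exact Subgroup.index_dvd_of_le hZR
    have h2 : R.index ∣ p - 1 := by
      have h3 : R.index = Nat.card χ.range := Subgroup.index_ker χ
      have hcyc : IsCyclic Z := inferInstance
      have h4 : Nat.card (MulAut Z) = p - 1 := by
        rw [IsCyclic.card_mulAut, hZc, Nat.totient_prime hp]
      rw [h3, ← h4]
      exact Subgroup.card_subgroup_dvd_card _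
    obtain ⟨j, -, hj⟩ := (Nat.dvd_prime_pow Nat.prime_two).1 h1
    rw [hj] at h2 ⊢
    rcases j with _ | _ | j
    · exact Or.inl rfl
    · exact Or.inr rfl
    · exfalso
      have h5 : 4 ∣ p - 1 := (Dvd.intro_left (2 ^ j) (by ring)).trans h2
      omega
  let S : Subgroup Q := (P : Subgroup Q) ⊓ R
  have hSn : S.Normal := by
    refine ⟨fun t ht x => ?_⟩
    have hx : x ∈ Z ⊔ (P : Subgroup Q) := by rw [hZPtop]; trivial
    have hx' : x ∈ ((Z ⊔ (P : Subgroup Q) : Subgroup Q) : Set Q) := hx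
    rw [Subgroup.normal_mul, Set.mem_mul] at hx'
    obtain ⟨y, hy, s, hs, rfl⟩ := hx'
    have h1 : s * t * s⁻¹ ∈ S := by
      refine ⟨?_, hRn.conj_mem t ht.2 s⟩
      exact (P : Subgroup Q).mul_mem ((P : Subgroup Q).mul_mem hs ht.1)
        ((P : Subgroup Q).inv_mem hs)
    have h2 : Commute (s * t * s⁻¹) y := by
      obtain ⟨k, rfl⟩ := hy
      have h3 : Commute (s * t * s⁻¹) z := (hR _).1 h1.2
      exact h3.zpow_right k
    have h4 : y * s * t * (y * s)⁻¹ = s * t * s⁻¹ := by
      have e : y * s * t * (y * s)⁻¹ = y * (s * t * s⁻¹) * y⁻¹ := by group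
      rw [e, h2.symm.eq, mul_inv_cancel_right]
    rw [h4]
    exact h1
  have hSi : S.index = R.index * p := by
    apply le_antisymm
    · have h1 : S.index ≤ (P : Subgroup Q).index * R.index := Subgroup.index_inf_le
      rwa [hPi, mul_comm] at h1
    · apply Nat.le_of_dvd (Nat.pos_of_ne_zero Subgroup.index_ne_zero_of_finite)
      have h1 : R.index ∣ S.index := Subgroup.index_dvd_of_le inf_le_right
      have h2 : p ∣ S.index := by
        rw [← hPi]
        exact Subgroup.index_dvd_of_le inf_le_left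
      refine Nat.Coprime.mul_dvd_of_dvd_of_dvd ?_ h1 h2
      rcases hRi with h | h <;> rw [h]
      · exact Nat.coprime_one_left p
      · exact hcop
  rcases hRi with h | h
  · left
    refine ⟨S.comap π, hSn.comap π, ?_⟩
    rw [Subgroup.index_comap_of_surjective _ hπ, hSi, h, one_mul]
  · right
    refine ⟨S.comap π, R.comap π, (P : Subgroup Q).comap π, hSn.comap π,
      Subgroup.comap_mono inf_le_right, Subgroup.comap_mono inf_le_left, ?_, ?_, ?_, ?_⟩
    · rw [Subgroup.index_comap_of_surjective _ hπ, hSi, h]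
    · rw [Subgroup.index_comap_of_surjective _ hπ, h]
    · rw [Subgroup.index_comap_of_surjective _ hπ, hPi]
    · -- an element which does not commute with `c`
      have h1 : ∃ x : Q, x ∉ R := by
        by_contra hcon
        push Not at hcon
        have : R = ⊤ := by
          rw [Subgroup.eq_top_iff']
          exact hcon
        rw [this, Subgroup.index_top] at h
        exact absurd h (by norm_num)
      obtain ⟨x, hx⟩ := h1
      obtain ⟨g, rfl⟩ := hπ x
      refine ⟨g, c, fun hmem => hx ?_⟩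
      have h2 : π g * z * (π g)⁻¹ * z⁻¹ ∈ S := by
        have := Subgroup.mem_comap.1 hmem
        rwa [map_mul, map_mul, map_mul, map_inv, map_inv] at this
      have h3 : π g * z * (π g)⁻¹ * z⁻¹ ∈ Z :=
        Z.mul_mem (hZn.conj_mem z (Subgroup.mem_zpowers z) (π g))
          (Z.inv_mem (Subgroup.mem_zpowers z))
      have h4 : π g * z * (π g)⁻¹ * z⁻¹ ∈ Z ⊓ (P : Subgroup Q) := ⟨h3, h2.1⟩
      rw [hZP, Subgroup.mem_bot] at h4
      rw [hR]
      have h5 : π g * z * (π g)⁻¹ = z := mul_inv_eq_one.1 h4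
      exact mul_inv_eq_iff_eq_mul.1 h5

end Pool.Agent.U865.PP
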