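import Pool.Agent.U865.PP.Cart
import Pool.Agent.U865.PP.Dih
import Pool.Agent.R333.BR.Pts

/-!
# Parity for elliptic curves: the induction over the intermediate fields
-/

set_option autoImplicit false

open Module NumberField IntermediateField
open scoped Classical

namespace Pool.Agent.U865.PP

/-- The number of the fixed points of `g` on `G / H`, the value at `g` of the permutation character. -/
noncomputable def fix {G : Type} [Group G] (H : Subgroup G) (g : G) : ℤ :=
  (Nat.card {c : G ⧸ H // g • c = c} : ℤ)

/-- A property of elliptic curves over number fields which descends along the relations between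
permutation characters with an odd multiple of the trivial character. -/
def Descends (Par : ∀ (K : Type) [Field K] [NumberField K], WeierstrassCurve K → Prop) : Prop :=
  ∀ (K L : Type) [Field K] [NumberField K] [Field L] [NumberField L] [Algebra K L]
    [IsGalois K L] (E : WeierstrassCurve K), E.IsElliptic →
    ∀ (n : Subgroup Gal(L/K) → ℤ) (m : ℕ), Odd m → (∀ g, ∑ᶠ H, n H * fix H g = m) →
      (∀ H, n H ≠ 0 → Par (fixedField H) (E.baseChange (fixedField H))) → Par K E

lemma baseChange_baseChange {K F L : Type} [Field K] [Field F] [Field L] [Algebra K F]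
    [Algebra F L] [Algebra K L] [IsScalarTower K F L] (E : WeierstrassCurve K) :
    (E.baseChange F).baseChange L = E.baseChange L := by
  change (E.map (algebraMap K F)).map (algebraMap F L) = E.map (algebraMap K L)
  rw [WeierstrassCurve.map_map, ← IsScalarTower.algebraMap_eq]

lemma elliptic_baseChange {K F : Type} [Field K] [Field F] [Algebra K F] {E : WeierstrassCurve K}
    (hE : E.IsElliptic) : (E.baseChange F).IsElliptic := by
  have := hE
  change (E.map _).IsElliptic
  infer_instance

lemma unit_pow_odd (u : ℤˣ) {m : ℕ} (hm : Odd m) : u ^ (m : ℤ) = u := by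
  rw [zpow_natCast]
  obtain ⟨k, rfl⟩ := hm
  rcases Int.units_eq_one_or u with h | h <;> rw [h, pow_add, pow_mul] <;> simp

lemma zpow_sum {ι : Type*} (s : Finset ι) (f : ι → ℤ) :
    (-1 : ℤˣ) ^ (∑ i ∈ s, f i) = ∏ i ∈ s, (-1 : ℤˣ) ^ f i := by
  induction s using Finset.induction_on with
  | empty => rw [Finset.sum_empty, Finset.prod_empty, zpow_zero]
  | insert a s ha ih => rw [Finset.sum_insert ha, Finset.prod_insert ha, zpow_add, ih]

section

variable {Par : ∀ (K : Type) [Field K] [NumberField K], WeierstrassCurve K → Prop}

/-- Maximal fields for which the property fails. -/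
theorem hyper_of_fail (hPar : Descends Par) {K L : Type} [Field K] [NumberField K] [Field L]
    [NumberField L] [Algebra K L] [IsGalois K L] {E : WeierstrassCurve K} (hE : E.IsElliptic)
    (hfail : ¬ Par K E) (hup : ∀ H : Subgroup Gal(L/K), H ≠ ⊤ →
      Par (fixedField H) (E.baseChange (fixedField H))) : TwoHyper Gal(L/K) := by
  obtain ⟨m, n, hm, hn, hsum⟩ := two_local Gal(L/K)
  by_cases htop : n ⊤ = 0
  · exfalso
    apply hfail
    refine hPar K L E hE n m hm hsum fun H hH => hup H ?_
    rintro rfl
    exact hH htop
  · exact (hn ⊤ htop).of_equiv Subgroup.topEquiv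

/-- **Existence of a maximal field for which the property fails.** -/
theorem exists_max (hPar : Descends Par) {K L : Type} [Field K] [NumberField K] [Field L]
    [NumberField L] [Algebra K L] [IsGalois K L] {E : WeierstrassCurve K} (hE : E.IsElliptic)
    (hfail : ¬ Par K E) :
    ∃ (F : Type) (_ : Field F) (_ : NumberField F) (_ : Algebra K F) (_ : Algebra F L),
      IsScalarTower K F L ∧ IsGalois F L ∧ ¬ Par F (E.baseChange F) ∧ TwoHyper Gal(L/F) ∧
      ∀ (F' : Type) [Field F'] [NumberField F'] [Algebra K F'] [Algebra F F'] [Algebra F' L]
        [IsScalarTower K F F'] [IsScalarTower K F' L], finrank F' L < finrank F L →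
        Par F' (E.baseChange F') := by
  have key : ∀ d : ℕ, ∀ (F : Type) [Field F] [NumberField F] [Algebra K F] [Algebra F L]
      [IsScalarTower K F L], finrank F L = d → ¬ Par F (E.baseChange F) →
    ∃ (F : Type) (_ : Field F) (_ : NumberField F) (_ : Algebra K F) (_ : Algebra F L),
      IsScalarTower K F L ∧ IsGalois F L ∧ ¬ Par F (E.baseChange F) ∧ TwoHyper Gal(L/F) ∧
      ∀ (F' : Type) [Field F'] [NumberField F'] [Algebra K F'] [Algebra F F'] [Algebra F' L]
        [IsScalarTower K F F'] [IsScalarTower K F' L], finrank F' L < finrank F L →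
        Par F' (E.baseChange F') := by
    intro d
    induction d using Nat.strong_induction_on with
    | _ d ih =>
      intro F _ _ _ _ _ hd hF
      by_cases hall : ∀ (F' : Type) [Field F'] [NumberField F'] [Algebra K F'] [Algebra F F']
          [Algebra F' L] [IsScalarTower K F F'] [IsScalarTower K F' L],
          finrank F' L < finrank F L → Par F' (E.baseChange F')
      · have hgal : IsGalois F L := IsGalois.tower_top_of_isGalois K F L
        refine ⟨F, inferInstance, inferInstance, inferInstance, inferInstance, inferInstance, hgal,
          hF, ?_, hall⟩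
        refine hyper_of_fail hPar (elliptic_baseChange hE) hF fun H hH => ?_
        have h1 : finrank F (fixedField H) * finrank (fixedField H) L = finrank F L :=
          Module.finrank_mul_finrank _ _ _
        have h2 : finrank F (fixedField H) ≠ 1 := by
          intro h3
          rw [IntermediateField.finrank_eq_one_iff] at h3
          apply hH
          rw [← IntermediateField.fixingSubgroup_fixedField H, h3,
            IntermediateField.fixingSubgroup_bot]
        have h3 : 0 < finrank F (fixedField H) := finrank_pos
        have h4 : 0 < finrank (fixedField H) L := finrank_pos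
        have h5 : finrank (fixedField H) L < finrank F L := by
          rw [← h1]
          exact lt_mul_of_one_lt_left h4 (by omega)
        have : IsScalarTower K (fixedField H) L := IsScalarTower.of_algebraMap_eq fun x => rfl
        have : IsScalarTower K F (fixedField H) := IsScalarTower.of_algebraMap_eq fun x =>
          Subtype.ext (IsScalarTower.algebraMap_apply K F L x)
        have h6 := hall (fixedField H) h5
        rwa [← baseChange_baseChange (F := F)] at h6
      · push Not at hall
        obtain ⟨F', i1, i2, i3, i4, i5, i6, i7, hlt, hF'⟩ := hall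
        exact ih _ (hd ▸ hlt) F' rfl hF'
  have h2 : E.baseChange K = E := E.map_id
  refine key _ K rfl ?_
  rwa [h2]

/-- **One curve.** -/
theorem one_curve (hPar : Descends Par) {K L : Type} [Field K] [NumberField K] [Field L]
    [NumberField L] [Algebra K L] [IsGalois K L] {E : WeierstrassCurve K} (hE : E.IsElliptic)
    (h : ∀ (F : Type) [Field F] [NumberField F] [Algebra K F] [Algebra F L] [IsScalarTower K F L],
      TwoHyper Gal(L/F) → Par F (E.baseChange F)) : Par K E := by
  by_contra hfail
  obtain ⟨F, i1, i2, i3, i4, i5, -, hF, hyp, -⟩ := exists_max (L := L) hPar hE hfail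
  exact hF (h F hyp)

end

/-- The property `X` of elliptic curves over number fields is preserved by finite extensions, every
elliptic curve over a number field has it over a finite extension, and it implies that there are
`p ^ 2` points `P` with `p P = 0` over the field, for all `p ∈ S`. -/
def IsPotential (S : Set ℕ)
    (X : ∀ (K : Type) [Field K] [NumberField K], WeierstrassCurve K → Prop) : Prop :=
  (∀ (K M : Type) [Field K] [NumberField K] [Field M] [NumberField M] [Algebra K M]
    (E : WeierstrassCurve K), X K E → X M (E.baseChange M)) ∧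
  (∀ (K : Type) [Field K] [NumberField K] (E : WeierstrassCurve K), E.IsElliptic →
    ∃ (M : Type) (_ : Field M) (_ : NumberField M) (_ : Algebra K M), X M (E.baseChange M)) ∧
  ∀ (K : Type) [Field K] [NumberField K] (E : WeierstrassCurve K), X K E →
    ∀ p ∈ S, Nat.card (Tors p E) = p ^ 2

/-- The Galois closure. -/
lemma exists_closure (K M : Type) [Field K] [NumberField K] [Field M] [NumberField M]
    [Algebra K M] :
    ∃ (L : Type) (_ : Field L) (_ : NumberField L) (_ : Algebra K L) (_ : Algebra M L),
      IsScalarTower K M L ∧ IsGalois K L := by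
  let Ω := AlgebraicClosure M
  let L := normalClosure K M Ω
  have hfd : FiniteDimensional K M := inferInstance
  have hL : FiniteDimensional K L := normalClosure.is_finiteDimensional K M Ω
  have hN : NumberField L := NumberField.of_module_finite K L
  have hnorm : Normal K L := normalClosure.normal K M Ω
  have hgal : IsGalois K L := by
    refine ⟨⟩
  exact ⟨L, inferInstance, hN, inferInstance, inferInstance, inferInstance, hgal⟩

/-- **All curves.** -/
theorem all_curves {Par : ∀ (K : Type) [Field K] [NumberField K], WeierstrassCurve K → Prop}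
    (hPar : Descends Par) {S : Set ℕ}
    {X : ∀ (K : Type) [Field K] [NumberField K], WeierstrassCurve K → Prop}
    (hX : IsPotential S X)
    (h : ∀ (F : Type) [Field F] [NumberField F] (E : WeierstrassCurve F), E.IsElliptic →
      ∀ (L : Type) [Field L] [NumberField L] [Algebra F L] [IsGalois F L],
        X L (E.baseChange L) → TwoHyper Gal(L/F) → Par F E) :
    ∀ (K : Type) [Field K] [NumberField K] (E : WeierstrassCurve K), E.IsElliptic → Par K E := by
  intro K _ _ E hE
  obtain ⟨M, iF, iN, iA, hM⟩ := hX.2.1 K E hE
  obtain ⟨L, jF, jN, jA, jM, hst, hgal⟩ := exists_closure K M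
  have hL : X L (E.baseChange L) := by
    have := hX.1 M L (E.baseChange M) hM
    rwa [baseChange_baseChange] at this
  refine one_curve hPar (L := L) hE fun F _ _ _ _ _ hF => ?_
  have : IsGalois F L := IsGalois.tower_top_of_isGalois K F L
  refine h F (E.baseChange F) (elliptic_baseChange hE) L ?_ hF
  rw [baseChange_baseChange]
  exact hL

/-! ### The image on the points of order `p` -/

/-- The Galois group of `L / F` fixes a group of `p` points on `E` over `L`: the curve has an isogeny of
degree `p` over `F`. -/
def HasIsogeny (p : ℕ) (F L : Type) [Field F] [Field L] [Algebra F L] (E : WeierstrassCurve F) :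
    Prop :=
  ∃ C : AddSubgroup (Tors p (E.baseChange L)), Nat.card C = p ∧
    ∀ σ : Gal(L/F), ∀ P ∈ C, act p E σ P ∈ C

/-- The image of `Gal(L/F)` in the automorphism group of the group of the points `P` over `L` with
`p P = 0` is contained in the normalizer of a Cartan subgroup. -/
def InNormalizer (p : ℕ) (F L : Type) [Field F] [Field L] [Algebra F L] (E : WeierstrassCurve F) :
    Prop :=
  ∃ a, IsCartan p (fun σ : Gal(L/F) => act p E σ) a

theorem image {p : ℕ} (hp : p.Prime) {F L : Type} [Field F] [NumberField F] [Field L]
    [NumberField L] [Algebra F L] [IsGalois F L] (E : WeierstrassCurve F)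
    (hfull : Nat.card (Tors p (E.baseChange L)) = p ^ 2) (hyp : TwoHyper Gal(L/F)) :
    HasIsogeny p F L E ∨ InNormalizer p F L E := by
  by_cases hC : HasIsogeny p F L E
  · exact Or.inl hC
  · right
    have : Fact p.Prime := ⟨hp⟩
    unfold HasIsogeny at hC
    push Not at hC
    exact exists_cartan (p := p) (G := Gal(L/F)) (fun v => Tors.nsmul v) hfull
      (fun σ => act p E σ) (fun v => act_one p _ v) (fun g g' v => act_mul p _ g g' v) hyp hC

/-! ### Mordell-Weil ranks -/

/-- The parity conjecture for the Mordell-Weil rank and the root number `w`. -/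
def RankParity (w : ∀ (K : Type) [Field K] [NumberField K], WeierstrassCurve K → ℤˣ)
    (K : Type) [Field K] [NumberField K] (E : WeierstrassCurve K) : Prop :=
  ∃ r : ℕ, Module.rank ℤ E.toAffine.Point = r ∧ (-1 : ℤˣ) ^ r = w K E

/-- The root numbers satisfy the relations between the permutation characters. -/
def ArtinFormalism (w : ∀ (K : Type) [Field K] [NumberField K], WeierstrassCurve K → ℤˣ) : Prop :=
  ∀ (K L : Type) [Field K] [NumberField K] [Field L] [NumberField L] [Algebra K L]
    [IsGalois K L] (E : WeierstrassCurve K), E.IsElliptic →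
    ∀ (n : Subgroup Gal(L/K) → ℤ) (m : ℤ), (∀ g, ∑ᶠ H, n H * fix H g = m) →
      ∏ᶠ H : Subgroup Gal(L/K), w (fixedField H) (E.baseChange (fixedField H)) ^ n H = w K E ^ m

theorem rank_descends {w : ∀ (K : Type) [Field K] [NumberField K], WeierstrassCurve K → ℤˣ}
    (hw : ArtinFormalism w) : Descends (RankParity w) := by
  intro K L _ _ _ _ _ _ E hE n m hm hsum hpar
  have hfd : FiniteDimensional K L := inferInstance
  let ι := {H : Subgroup Gal(L/K) // n H ≠ 0}
  let _ : Fintype (Subgroup Gal(L/K)) := Fintype.ofFinite _
  choose r hr hrw using fun i : ι => hpar i.1 i.2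
  have hsum' : ∀ g, ∑ H, n H * fix H g = m := by
    intro g
    rw [← hsum g, finsum_eq_sum_of_fintype]
  have hι : Nonempty ι := by
    by_contra hcon
    rw [not_nonempty_iff] at hcon
    have h1 := hsum' 1
    rw [Finset.sum_eq_zero] at h1
    · have : m ≠ 0 := by
        rintro rfl
        exact absurd hm (by decide)
      exact this (by exact_mod_cast h1.symm)
    · intro H _
      by_contra h
      exact hcon.false ⟨H, fun h0 => h (by rw [h0, zero_mul])⟩
  have hsub : ∀ f : Subgroup Gal(L/K) → ℤ, (∀ H, n H = 0 → f H = 0) →
      ∑ i : ι, f i.1 = ∑ H, f H := by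
    intro f hf
    rw [← Finset.sum_subtype (Finset.univ.filter (fun H => n H ≠ 0)) (fun H => by simp) f]
    refine Finset.sum_filter_of_ne fun H _ hne h0 => hne (hf H h0)
  obtain ⟨r0, hr0, hsumr⟩ := Pool.Agent.R333.BR.rank_rel (L := L) E
    (fun i : ι => (fixedField i.1 : IntermediateField K L)) (fun i => (fixedField i.1).val)
    (fun i => n i.1) m (fun g => by
      have h1 : ∀ i : ι, ((fixedField i.1 : IntermediateField K L).val).fieldRange.fixingSubgroup =
          i.1 := by
        intro i
        rw [IntermediateField.fieldRange_val, IntermediateField.fixingSubgroup_fixedField]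
      simp only [h1]
      rw [← hsum' g]
      exact hsub (fun H => n H * fix H g) (fun H h0 => by rw [h0, zero_mul])) r hr
  refine ⟨r0, hr0, ?_⟩
  have h2 := hw K L E hE n m hsum
  rw [← unit_pow_odd (w K E) hm, ← h2, ← unit_pow_odd ((-1 : ℤˣ) ^ r0) hm,
    finprod_eq_prod_of_fintype, ← zpow_natCast, ← zpow_mul, mul_comm, hsumr]
  have h3 : ∏ H, w (fixedField H) (E.baseChange (fixedField H)) ^ n H =
      ∏ i : ι, w (fixedField i.1) (E.baseChange (fixedField i.1)) ^ n i.1 := by
    rw [← Finset.prod_subtype (Finset.univ.filter (fun H => n H ≠ 0)) (fun H => by simp)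
      (fun H => w (fixedField H) (E.baseChange (fixedField H)) ^ n H)]
    symm
    apply Finset.prod_filter_of_ne
    intro H _ hne h0
    exact hne (by rw [h0, zpow_zero])
  rw [h3, zpow_sum]
  refine Finset.prod_congr rfl fun i _ => ?_
  rw [← hrw i, mul_comm, zpow_mul, zpow_natCast]

end Pool.Agent.U865.PP
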