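import Mathlib

/-!
# Two-hyperelementary groups acting irreducibly on a group of type `(p, p)`
-/

set_option autoImplicit false

open Module

namespace Pool.Agent.U865.PP

/-- The group `G` is `2`-hyperelementary: it has a cyclic normal subgroup of odd order whose quotient is
a `2`-group. -/
def TwoHyper (G : Type*) [Group G] : Prop :=
  ∃ c : G, Odd (orderOf c) ∧ (∀ g : G, g * c * g⁻¹ ∈ Subgroup.zpowers c) ∧
    ∀ g : G, ∃ k : ℕ, g ^ 2 ^ k ∈ Subgroup.zpowers c

lemma TwoHyper.of_equiv {G G' : Type*} [Group G] [Group G'] (e : G ≃* G') (h : TwoHyper G) :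
    TwoHyper G' := by
  obtain ⟨c, hc, hn, hp⟩ := h
  have hz : ∀ x : G, x ∈ Subgroup.zpowers c → e x ∈ Subgroup.zpowers (e c) := by
    rintro _ ⟨k, rfl⟩
    exact ⟨k, (map_zpow e c k).symm⟩
  refine ⟨e c, ?_, fun g => ?_, fun g => ?_⟩
  · rwa [MulEquiv.orderOf_eq]
  · have := hz _ (hn (e.symm g))
    rwa [map_mul, map_mul, map_inv, e.apply_symm_apply] at this
  · obtain ⟨k, hk⟩ := hp (e.symm g)
    refine ⟨k, ?_⟩
    have := hz _ hk
    rwa [map_pow, e.apply_symm_apply] at this

section

variable {k V G : Type*} [Field k] [AddCommGroup V] [Module k V] [Group G]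

/-- In dimension two, an endomorphism is a root of a polynomial of degree two. -/
lemma quad (h2 : finrank k V = 2) (a : End k V) :
    ∃ t n : k, ∀ v, a (a v) = t • a v - n • v := by
  have hfin : Module.Finite k V := Module.finite_of_finrank_pos (by omega)
  have hch := LinearMap.aeval_self_charpoly a
  have hd : a.charpoly.natDegree = 2 := by rw [LinearMap.charpoly_natDegree, h2]
  have hm := LinearMap.charpoly_monic a
  refine ⟨- a.charpoly.coeff 1, a.charpoly.coeff 0, fun v => ?_⟩
  have h1 := congrArg (fun f => f v) hch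
  rw [Polynomial.aeval_eq_sum_range, hd, Finset.sum_range_succ, Finset.sum_range_succ,
    Finset.sum_range_one] at h1
  have h3 : a.charpoly.coeff 2 = 1 := by
    rw [← hd]
    exact hm
  rw [h3] at h1
  simp only [pow_zero, pow_one, one_smul, LinearMap.add_apply, LinearMap.smul_apply,
    Module.End.one_apply, LinearMap.zero_apply] at h1
  have h4 : (a ^ 2) v = a (a v) := by rw [pow_two]; rfl
  rw [h4] at h1
  have h5 : a (a v) = - (a.charpoly.coeff 0 • v + a.charpoly.coeff 1 • a v) :=
    eq_neg_of_add_eq_zero_right h1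
  rw [h5, neg_smul]
  abel

/-- The powers of an endomorphism in dimension two. -/
lemma pow_mem (h2 : finrank k V = 2) (a : End k V) (j : ℕ) :
    ∃ x y : k, ∀ v, (a ^ j) v = x • v + y • a v := by
  obtain ⟨t, n, h⟩ := quad h2 a
  induction j with
  | zero => exact ⟨1, 0, fun v => by simp⟩
  | succ j ih =>
    obtain ⟨x, y, hxy⟩ := ih
    refine ⟨- (n * y), x + t * y, fun v => ?_⟩
    have e : (a ^ (j + 1)) v = a ((a ^ j) v) := by rw [pow_succ']; rfl
    rw [e, hxy, map_add, map_smul, map_smul, h, smul_sub, smul_smul, smul_smul, add_smul, neg_smul,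
      mul_comm n y, mul_comm t y]
    abel

/-- An irreducible `2`-hyperelementary group normalises a quadratic algebra. -/
lemma exists_normalised [Finite G] (h2 : finrank k V = 2) (ρ : G →* End k V) (hG : TwoHyper G)
    (hirr : ∀ C : Submodule k V, finrank k C = 1 → ∃ g, ∃ v ∈ C, ρ g v ∉ C) :
    ∃ a : End k V, (∀ x : k, a ≠ x • (1 : End k V)) ∧
      ∀ g, ∃ x y : k, ∀ v, ρ g (a v) = x • ρ g v + y • a (ρ g v) := by
  classical
  have hfin : Module.Finite k V := Module.finite_of_finrank_pos (by omega)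
  obtain ⟨c, hodd, hn, hp⟩ := hG
  by_cases hc : ∃ x : k, ρ c = x • (1 : End k V)
  · -- the group acts projectively through a `2`-group
    obtain ⟨x₀, hx₀⟩ := hc
    let Z : Subgroup G :=
      { carrier := {g | ∃ x : k, ρ g = x • (1 : End k V)}
        one_mem' := ⟨1, by rw [map_one, one_smul]⟩
        mul_mem' := by
          rintro a b ⟨x, hx⟩ ⟨y, hy⟩
          refine ⟨x * y, ?_⟩
          rw [map_mul, hx, hy, smul_mul_smul_comm, one_mul]
        inv_mem' := by
          rintro a ⟨x, hx⟩
          have h1 : ρ a * ρ a⁻¹ = 1 := by rw [← map_mul, mul_inv_cancel, map_one]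
          rw [hx, smul_mul_assoc, one_mul] at h1
          have hx0 : x ≠ 0 := by
            rintro rfl
            rw [zero_smul] at h1
            have : Nontrivial V := Module.nontrivial_of_finrank_pos (R := k) (by omega)
            exact zero_ne_one h1
          refine ⟨x⁻¹, ?_⟩
          rw [← h1, smul_smul, inv_mul_cancel₀ hx0, one_smul] }
    have hZ : Z.Normal := by
      refine ⟨?_⟩
      rintro a ⟨x, hx⟩ g
      refine ⟨x, ?_⟩
      rw [map_mul, map_mul, hx, mul_smul_comm, mul_one, smul_mul_assoc, ← map_mul,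
        mul_inv_cancel, map_one]
    have hcZ : Subgroup.zpowers c ≤ Z := by
      rw [Subgroup.zpowers_le]
      exact ⟨x₀, hx₀⟩
    have hP : IsPGroup 2 (G ⧸ Z) := by
      intro q
      obtain ⟨g, rfl⟩ := QuotientGroup.mk_surjective q
      obtain ⟨j, hj⟩ := hp g
      refine ⟨j, ?_⟩
      rw [← QuotientGroup.mk_pow]
      exact (QuotientGroup.eq_one_iff _).2 (hcZ hj)
    have hnt : Nontrivial (G ⧸ Z) := by
      by_contra hcon
      rw [not_nontrivial_iff_subsingleton] at hcon
      have hall : ∀ g : G, ∃ x : k, ρ g = x • (1 : End k V) := by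
        intro g
        have : (g : G ⧸ Z) = 1 := Subsingleton.elim _ _
        exact (QuotientGroup.eq_one_iff g).1 this
      obtain ⟨v, hv⟩ : ∃ v : V, v ≠ 0 := by
        have : Nontrivial V := Module.nontrivial_of_finrank_pos (R := k) (by omega)
        exact exists_ne 0
      obtain ⟨g, u, hu, hgu⟩ := hirr (Submodule.span k {v}) (finrank_span_singleton hv)
      obtain ⟨x, hx⟩ := hall g
      apply hgu
      rw [hx]
      exact Submodule.smul_mem _ _ hu
    have : Fact (Nat.Prime 2) := ⟨Nat.prime_two⟩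
    obtain ⟨q, hq⟩ := (Subgroup.nontrivial_iff_exists_ne_one _).1 hP.center_nontrivial
    obtain ⟨g, rfl⟩ := QuotientGroup.mk_surjective q
    refine ⟨ρ g, fun x hx => hq.2 ((QuotientGroup.eq_one_iff g).2 ⟨x, hx⟩), fun h => ?_⟩
    have h1 := (Subgroup.mem_center_iff.1 hq.1) (h : G ⧸ Z)
    have h2 : ((h * g : G) : G ⧸ Z) = ((g * h : G) : G ⧸ Z) := h1
    have h3 : (g * h)⁻¹ * (h * g) ∈ Z := QuotientGroup.eq.1 h2.symm
    obtain ⟨x, hx⟩ := h3
    refine ⟨0, x, fun v => ?_⟩
    have h4 : ρ h * ρ g = x • (ρ g * ρ h) := by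
      rw [← map_mul, ← map_mul]
      have e : h * g = (g * h) * ((g * h)⁻¹ * (h * g)) := by group
      conv_lhs => rw [e, map_mul, hx]
      rw [mul_smul_comm, mul_one]
    have h5 := congrArg (fun f => f v) h4
    rw [zero_smul, zero_add]
    exact h5
  · push Not at hc
    refine ⟨ρ c, hc, fun g => ?_⟩
    have h1 := hn g
    rw [← mem_powers_iff_mem_zpowers] at h1
    obtain ⟨j, hj⟩ := h1
    obtain ⟨x, y, hxy⟩ := pow_mem h2 (ρ c) j
    refine ⟨x, y, fun v => ?_⟩
    have h3 : ρ g * ρ c = ρ c ^ j * ρ g := by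
      rw [← map_mul, ← map_pow, ← map_mul]
      congr 1
      have h4 : c ^ j = g * c * g⁻¹ := hj
      rw [h4, inv_mul_cancel_right]
    have h5 := congrArg (fun f => f v) h3
    have h6 : ρ g (ρ c v) = (ρ c ^ j) (ρ g v) := h5
    rw [h6, hxy]

/-- The quadratic algebra is étale. -/
lemma separable_of_irred (h2 : finrank k V = 2) (ρ : G →* End k V)
    (hirr : ∀ C : Submodule k V, finrank k C = 1 → ∃ g, ∃ v ∈ C, ρ g v ∉ C)
    {a : End k V} (ha : ∀ x : k, a ≠ x • (1 : End k V))
    (hn : ∀ g, ∃ x y : k, ∀ v, ρ g (a v) = x • ρ g v + y • a (ρ g v)) {t n : k}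
    (hq : ∀ v, a (a v) = t • a v - n • v) (r : k) : ¬ (r ^ 2 - t * r + n = 0 ∧ 2 * r - t = 0) := by
  classical
  have hfin : Module.Finite k V := Module.finite_of_finrank_pos (by omega)
  rintro ⟨h1, h3⟩
  have ht : t = 2 * r := by linear_combination -h3
  have hn' : n = r ^ 2 := by
    rw [ht] at h1
    linear_combination h1
  -- `(a - r) ^ 2 = 0`
  have hsq : ∀ v, a (a v - r • v) - r • (a v - r • v) = 0 := by
    intro v
    rw [map_sub, map_smul, hq, ht, hn', smul_sub, smul_smul, two_mul, add_smul, ← pow_two]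
    abel
  let f : End k V := a - r • 1
  have hf : ∀ v, f v = a v - r • v := fun v => by
    simp only [f, LinearMap.sub_apply, LinearMap.smul_apply, Module.End.one_apply]
  have hff : ∀ v, f (f v) = 0 := by
    intro v
    rw [hf v, hf]
    exact hsq v
  have hf0 : f ≠ 0 := by
    intro h
    apply ha r
    exact sub_eq_zero.1 h
  -- the kernel is a line
  have hk := LinearMap.finrank_range_add_finrank_ker f
  rw [h2] at hk
  have hle : LinearMap.range f ≤ LinearMap.ker f := by
    rintro _ ⟨v, rfl⟩
    exact hff v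
  have hle' := Submodule.finrank_mono hle
  have hpos : 0 < finrank k (LinearMap.range f) := by
    rw [Nat.pos_iff_ne_zero]
    intro h0
    have := Submodule.finrank_eq_zero.1 h0
    exact hf0 (LinearMap.range_eq_bot.1 this)
  have hker : finrank k (LinearMap.ker f) = 1 := by omega
  obtain ⟨g, v, hv, hgv⟩ := hirr _ hker
  apply hgv
  have hv' : a v = r • v := by
    have : f v = 0 := hv
    rw [hf] at this
    exact sub_eq_zero.1 this
  rw [LinearMap.mem_ker, hf]
  obtain ⟨x, y, hxy⟩ := hn g
  set u := ρ g v with hu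
  have h5 := hxy v
  rw [hv', map_smul, ← hu] at h5
  by_cases hy : y = 0
  · exfalso
    apply ha x
    ext w
    have h6 := hxy (a w)
    -- `ρ g` is injective
    have hinj : Function.Injective (ρ g) := by
      intro v₁ v₂ h
      have h7 := congrArg (ρ g⁻¹) h
      have h8 : ∀ v, ρ g⁻¹ (ρ g v) = v := by
        intro v
        have : (ρ g⁻¹ * ρ g) v = v := by rw [← map_mul, inv_mul_cancel, map_one]; rfl
        exact this
      rwa [h8, h8] at h7
    have h9 := hxy w
    rw [hy, zero_smul, add_zero, ← map_smul] at h9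
    rw [hinj h9]
    rfl
  · -- `u` is an eigenvector
    have h6 : a u = ((r - x) / y) • u := by
      have h7 : y • a u = (r - x) • u := by
        rw [sub_smul, h5]
        abel
      rw [div_eq_inv_mul, mul_smul, ← h7, smul_smul, inv_mul_cancel₀ hy, one_smul]
    set s := (r - x) / y with hs
    have h7 := hff u
    rw [hf u, h6, ← sub_smul, map_smul, hf, h6, ← sub_smul, smul_smul] at h7
    rcases smul_eq_zero.1 h7 with h8 | h8
    · have h9 : s - r = 0 := mul_self_eq_zero.1 h8
      rw [h6, ← sub_smul, h9, zero_smul]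
    · rw [h8, map_zero, smul_zero, sub_zero]

end

end Pool.Agent.U865.PP
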