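import Pool.Agent.U865.PP.Gen

/-!
# Selmer ranks
-/

set_option autoImplicit false

open Module NumberField IntermediateField
open scoped Classical

namespace Pool.Agent.U865.PP

section

variable {k G V : Type} [Field k] [CharZero k] [Group G] [Fintype G] [AddCommGroup V] [Module k V]
  [FiniteDimensional k V]

/-- Class functions. -/
theorem sum_fix (H : Subgroup G) (T : G → k) (hT : ∀ x g, T (x * g * x⁻¹) = T g) :
    ∑ g : G, ((fix H g : ℤ) : k) * T g = (Nat.card G : k) * ((Nat.card H : k)⁻¹ * ∑ h : H, T h) := by
  let _ : Fintype (G ⧸ H) := Fintype.ofFinite _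
  have h1 : ∀ g, ((fix H g : ℤ) : k) = ∑ c : G ⧸ H, if g • c = c then (1 : k) else 0 := by
    intro g
    rw [Finset.sum_boole, fix, Nat.card_eq_fintype_card, Fintype.card_subtype]
    simp
  have h2 : ∀ c : G ⧸ H, ∑ g : G, (if g • c = c then (1 : k) else 0) * T g = ∑ h : H, T h := by
    intro c
    obtain ⟨x, rfl⟩ := QuotientGroup.mk_surjective c
    rw [← Equiv.sum_comp (MulAut.conj x).toEquiv]
    have h3 : ∀ g : G, (if (MulAut.conj x).toEquiv g • (x : G ⧸ H) = x then (1 : k) else 0) *
        T ((MulAut.conj x).toEquiv g) = if g ∈ H then T g else 0 := by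
      intro g
      have e : (MulAut.conj x).toEquiv g = x * g * x⁻¹ := rfl
      rw [e, hT]
      have h4 : (x * g * x⁻¹) • (x : G ⧸ H) = x ↔ g ∈ H := by
        change ((x * g * x⁻¹ * x : G) : G ⧸ H) = x ↔ g ∈ H
        rw [QuotientGroup.eq]
        have e2 : (x * g * x⁻¹ * x)⁻¹ * x = g⁻¹ := by group
        rw [e2, H.inv_mem_iff]
      rw [if_congr h4 rfl rfl]
      split_ifs <;> simp
    rw [Finset.sum_congr rfl fun g _ => h3 g, ← Finset.sum_filter]
    exact Finset.sum_subtype _ (fun g => by simp) _
  have h3 : (Nat.card G : k) = Nat.card (G ⧸ H) * Nat.card H := by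
    exact_mod_cast (H.card_eq_card_quotient_mul_card_subgroup)
  have h4 : (Nat.card H : k) ≠ 0 := by exact_mod_cast Nat.card_pos.ne'
  calc ∑ g : G, ((fix H g : ℤ) : k) * T g
      = ∑ g : G, ∑ c : G ⧸ H, (if g • c = c then (1 : k) else 0) * T g := by
        refine Finset.sum_congr rfl fun g _ => ?_
        rw [h1, Finset.sum_mul]
    _ = ∑ c : G ⧸ H, ∑ h : H, T h := by
        rw [Finset.sum_comm]
        exact Finset.sum_congr rfl fun c _ => h2 c
    _ = _ := by
        rw [Finset.sum_const, Finset.card_univ, nsmul_eq_mul, h3, ← Nat.card_eq_fintype_card]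
        field_simp

/-- The dimension of the invariants of a subgroup. -/
theorem finrank_inv (ρ : Representation k G V) (H : Subgroup G) :
    (finrank k (Representation.invariants (ρ.comp H.subtype)) : k) =
      (Nat.card H : k)⁻¹ * ∑ h : H, LinearMap.trace k V (ρ h) := by
  have h4 : (Fintype.card H : k) ≠ 0 := by exact_mod_cast Fintype.card_ne_zero
  have : Invertible (Fintype.card H : k) := invertibleOfNonzero h4
  have h1 := (Representation.isProj_averageMap (ρ.comp H.subtype)).trace
  rw [← h1, Representation.averageMap, GroupAlgebra.average, map_smul, map_smul, map_sum, map_sum,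
    Nat.card_eq_fintype_card, smul_eq_mul, invOf_eq_inv]
  congr 1
  refine Finset.sum_congr rfl fun h _ => ?_
  rw [Representation.asAlgebraHom_of]
  rfl

/-- Relations between permutation characters give relations between dimensions of invariants. -/
theorem rel_finrank (ρ : Representation k G V) (n : Subgroup G → ℤ) (m : ℤ)
    (h : ∀ g, ∑ᶠ H, n H * fix H g = m) :
    ∑ᶠ H : Subgroup G, n H * (finrank k (Representation.invariants (ρ.comp H.subtype)) : ℤ) =
      m * (finrank k (Representation.invariants ρ) : ℤ) := by
  let _ : Fintype (Subgroup G) := Fintype.ofFinite _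
  have hG : (Nat.card G : k) ≠ 0 := by exact_mod_cast Nat.card_pos.ne'
  have hT : ∀ x g : G, LinearMap.trace k V (ρ (x * g * x⁻¹)) = LinearMap.trace k V (ρ g) := by
    intro x g
    rw [map_mul, LinearMap.trace_mul_comm, ← map_mul]
    congr 2
    group
  have htop : (finrank k (Representation.invariants ρ) : k) =
      (Nat.card G : k)⁻¹ * ∑ g : G, LinearMap.trace k V (ρ g) := by
    have h4 : (Fintype.card G : k) ≠ 0 := by exact_mod_cast Fintype.card_ne_zero
    have : Invertible (Fintype.card G : k) := invertibleOfNonzero h4
    have h1 := (Representation.isProj_averageMap ρ).trace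
    rw [← h1, Representation.averageMap, GroupAlgebra.average, map_smul, map_smul, map_sum,
      map_sum, Nat.card_eq_fintype_card, smul_eq_mul, invOf_eq_inv]
    congr 1
    refine Finset.sum_congr rfl fun h _ => ?_
    rw [Representation.asAlgebraHom_of]
  have key : (Nat.card G : k) * ((∑ H : Subgroup G, n H *
      (finrank k (Representation.invariants (ρ.comp H.subtype)) : ℤ) : ℤ) : k) =
      (Nat.card G : k) * ((m * (finrank k (Representation.invariants ρ) : ℤ) : ℤ) : k) := by
    push_cast
    rw [htop, Finset.mul_sum]
    have h1 : ∀ H : Subgroup G, (Nat.card G : k) * ((n H : k) *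
        (finrank k (Representation.invariants (ρ.comp H.subtype)) : k)) =
        ∑ g : G, ((n H * fix H g : ℤ) : k) * LinearMap.trace k V (ρ g) := by
      intro H
      rw [finrank_inv]
      have h2 := sum_fix H (fun g => LinearMap.trace k V (ρ g)) hT
      push_cast
      simp_rw [mul_assoc]
      rw [← Finset.mul_sum, h2]
      ring
    rw [Finset.sum_congr rfl fun H _ => h1 H, Finset.sum_comm]
    have h2 : ∀ g : G, ∑ H : Subgroup G, ((n H * fix H g : ℤ) : k) * LinearMap.trace k V (ρ g) =
        (m : k) * LinearMap.trace k V (ρ g) := by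
      intro g
      rw [← Finset.sum_mul, ← Int.cast_sum, ← finsum_eq_sum_of_fintype, h g]
    rw [Finset.sum_congr rfl fun g _ => h2 g, ← Finset.mul_sum, mul_left_comm,
      mul_inv_cancel_left₀ hG]
  rw [finsum_eq_sum_of_fintype]
  exact_mod_cast mul_left_cancel₀ hG key

end

/-- The `p^∞`-Selmer rank `rk K E` and the root number `w K E` of the elliptic curves `E` over the number
fields `K`. -/
structure Theory where
  /-- the `p^∞`-Selmer rank -/
  rk : ∀ (K : Type) [Field K] [NumberField K], WeierstrassCurve K → ℕ
  /-- the root number -/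
  w : ∀ (K : Type) [Field K] [NumberField K], WeierstrassCurve K → ℤˣ

/-- The `p`-parity conjecture for `E` over `K`: `(-1) ^ rk K E = w K E`. -/
def Theory.Parity (T : Theory) (K : Type) [Field K] [NumberField K] (E : WeierstrassCurve K) :
    Prop :=
  (-1 : ℤˣ) ^ T.rk K E = T.w K E

/-- The dimension of the space of the vectors which are invariant under the subgroup `H`. -/
noncomputable def invDim {k G V : Type} [Field k] [Group G] [AddCommGroup V] [Module k V]
    (ρ : Representation k G V) (H : Subgroup G) : ℕ :=
  finrank k (Representation.invariants (ρ.comp H.subtype))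

/-- For a Galois extension `L / K` there is a representation of `Gal(L/K)` on a vector space of finite
dimension over a field of characteristic zero (the Pontryagin dual of the `p^∞`-Selmer group of `E`
over `L`, tensored with `ℚ_p`) such that the `p^∞`-Selmer rank of `E` over the field of invariants of a
subgroup `H` is the dimension of the space of invariants of `H`. -/
def Theory.Control (T : Theory) : Prop :=
  ∀ (K L : Type) [Field K] [NumberField K] [Field L] [NumberField L] [Algebra K L]
    [IsGalois K L] (E : WeierstrassCurve K), E.IsElliptic →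
    ∃ (k V : Type) (_ : Field k) (_ : CharZero k) (_ : AddCommGroup V) (_ : Module k V)
      (ρ : Representation k Gal(L/K) V),
      FiniteDimensional k V ∧ T.rk K E = invDim ρ ⊤ ∧
      ∀ H : Subgroup Gal(L/K), T.rk (fixedField H) (E.baseChange (fixedField H)) = invDim ρ H

lemma invDim_top {k G V : Type} [Field k] [Group G] [AddCommGroup V] [Module k V]
    (ρ : Representation k G V) :
    invDim ρ ⊤ = finrank k (Representation.invariants ρ) := by
  unfold invDim
  have e : Representation.invariants (ρ.comp (⊤ : Subgroup G).subtype) =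
      Representation.invariants ρ := by
    ext x
    rw [Representation.mem_invariants, Representation.mem_invariants]
    constructor
    · intro h g
      exact h ⟨g, trivial⟩
    · intro h g
      exact h g.1
  rw [e]

theorem selmer_descends {T : Theory} (hT : T.Control) (hw : ArtinFormalism T.w) : Descends T.Parity := by
  intro K L _ _ _ _ _ _ E hE n m hm hsum hpar
  have hfd : FiniteDimensional K L := inferInstance
  let _ : Fintype Gal(L/K) := Fintype.ofFinite _
  let _ : Fintype (Subgroup Gal(L/K)) := Fintype.ofFinite _
  obtain ⟨k, V, i1, i2, i3, i4, ρ, i5, hK, hH⟩ := hT K L E hE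
  rw [invDim_top] at hK
  unfold invDim at hH
  have h1 := rel_finrank ρ n m hsum
  rw [← hK, finsum_eq_sum_of_fintype] at h1
  have h2 := hw K L E hE n m hsum
  have h3 : T.w K E = (-1 : ℤˣ) ^ T.rk K E := by
    rw [← unit_pow_odd (T.w K E) hm, ← h2, ← unit_pow_odd ((-1 : ℤˣ) ^ T.rk K E) hm,
      finprod_eq_prod_of_fintype, ← zpow_natCast (-1 : ℤˣ), ← zpow_mul, mul_comm, ← h1, zpow_sum]
    refine Finset.prod_congr rfl fun H _ => ?_
    by_cases h0 : n H = 0
    · rw [h0, zero_mul, zpow_zero, zpow_zero]
    · have := hpar H h0
      unfold Theory.Parity at this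
      rw [← this, ← hH H, mul_comm, zpow_mul, zpow_natCast]
  exact h3.symm

end Pool.Agent.U865.PP
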